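import Pool.Agent.D0H73.OP.Stm

/-!
# Project OP (helper73), module PUSH: from the group algebra to the finite groups
-/

set_option autoImplicit false

open Finset Pool.Agent.V1192 Pool.Agent.V1192.GA Pool.Agent.D0H73.OP
open Pool.Agent.V1192.UOD (V)
open Pool.Agent.V1192.UOC (LF fib LF_pt LF_mul norm_LF_le sum_fib sum_norm_fib)

namespace Pool.Agent.D0H30.OP

noncomputable section

variable {G : Type} [Group G] {p : ℕ} [Fact p.Prime] {N : ℕ → ℕ}

/-- the average of the `c`-th powers of the generators of block `i` -/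
def xi (t : (i : ℕ) → Fin (N i) → G) (i : ℕ) : GA G :=
  (1 / ((N i : ℂ) * ((p : ℂ) - 1))) •
    ∑ j : Fin (N i), ∑ c ∈ (univ : Finset (ZMod p)).erase 0, pt (t i j ^ c.val)

lemma norm_xi (hN : ∀ i, 0 < N i) (t : (i : ℕ) → Fin (N i) → G) (i : ℕ) :
    ‖(xi (p := p) t i : GA G)‖ ≤ 1 := by
  have hp : 1 < p := (Fact.out : p.Prime).one_lt
  have hD : 0 < N i * (p - 1) := Nat.mul_pos (hN i) (by omega)
  have hDc : (N i : ℂ) * ((p : ℂ) - 1) = ((N i * (p - 1) : ℕ) : ℂ) := by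
    rw [Nat.cast_mul, Nat.cast_sub hp.le, Nat.cast_one]
  have h1 : ‖∑ j : Fin (N i), ∑ c ∈ (univ : Finset (ZMod p)).erase 0,
      (pt (t i j ^ c.val) : GA G)‖ ≤ ((N i * (p - 1) : ℕ) : ℝ) := by
    refine (norm_sum_le _ _).trans ?_
    calc ∑ j : Fin (N i), ‖∑ c ∈ (univ : Finset (ZMod p)).erase 0, (pt (t i j ^ c.val) : GA G)‖
        ≤ ∑ j : Fin (N i), ((p - 1 : ℕ) : ℝ) := by
          refine sum_le_sum (fun j _ => (norm_sum_le _ _).trans ?_)
          simp [norm_pt, card_erase_of_mem, ZMod.card]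
      _ = _ := by simp
  have hDr : (0 : ℝ) < ((N i * (p - 1) : ℕ) : ℝ) := by exact_mod_cast hD
  unfold xi
  rw [norm_smul, hDc, norm_div, norm_one, Complex.norm_natCast, div_mul_eq_mul_div, one_mul,
    div_le_one hDr]
  exact h1

/-- the map to the product of the first `n` blocks -/
def Psi (ψ : (i : ℕ) → G → V p (N i)) (n : ℕ) (g : G) : H p N n := fun i => ψ i g

lemma Psi_mul (ψ : (i : ℕ) → G → V p (N i)) (hψ : ∀ i g h, ψ i (g * h) = ψ i g + ψ i h) (n : ℕ)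
    (g h : G) : Psi ψ n (g * h) = Psi ψ n g + Psi ψ n h := by
  funext i
  exact hψ i g h

lemma Psi_pow (ψ : (i : ℕ) → G → V p (N i)) (hψ : ∀ i g h, ψ i (g * h) = ψ i g + ψ i h) (n : ℕ)
    (g : G) (m : ℕ) : Psi ψ n (g ^ m) = m • Psi ψ n g := by
  induction m with
  | zero =>
    have h1 := Psi_mul ψ hψ n 1 1
    rw [mul_one] at h1
    rw [pow_zero, zero_smul]
    simpa using h1
  | succ m ih => rw [pow_succ, Psi_mul ψ hψ, ih, succ_nsmul]

lemma Psi_gen (ψ : (i : ℕ) → G → V p (N i)) (hψ : ∀ i g h, ψ i (g * h) = ψ i g + ψ i h)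
    (t : (i : ℕ) → Fin (N i) → G) (ht : ∀ i j, ψ i (t i j) = Pi.single j 1)
    (ht' : ∀ i i' j, i' ≠ i → ψ i' (t i j) = 0) (n : ℕ) (i : Fin n) (j : Fin (N i)) (c : ZMod p) :
    Psi ψ n (t i j ^ c.val) = Pi.single i (Pi.single j c) := by
  rw [Psi_pow ψ hψ]
  funext i'
  by_cases h : i' = i
  · subst h
    rw [Pi.single_eq_same]
    change c.val • ψ i' (t i' j) = _
    rw [ht]
    funext j'
    by_cases h2 : j' = j
    · subst h2
      simp
    · simp [Pi.single_eq_of_ne h2]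
  · rw [Pi.single_eq_of_ne h]
    change c.val • ψ i' (t i j) = 0
    rw [ht' i i' j (fun h3 => h (Fin.ext h3)), smul_zero]

lemma LF_xi (ψ : (i : ℕ) → G → V p (N i)) (hψ : ∀ i g h, ψ i (g * h) = ψ i g + ψ i h)
    (t : (i : ℕ) → Fin (N i) → G) (ht : ∀ i j, ψ i (t i j) = Pi.single j 1)
    (ht' : ∀ i i' j, i' ≠ i → ψ i' (t i j) = 0) (n : ℕ) (i : Fin n) (F : H p N n → ℂ) :
    LF (Psi ψ n) F (xi (p := p) t i) = Ex i F := by
  unfold xi Ex
  rw [map_smul, smul_eq_mul]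
  congr 1
  simp only [map_sum]
  refine sum_congr rfl (fun j _ => sum_congr rfl (fun c _ => ?_))
  rw [LF_pt, Psi_gen ψ hψ t ht ht']

lemma sum_single {A : Type} [Fintype A] (d : DecidableEq A) (f : A → ℂ) (g : A) :
    ∑ h, f h * (Pi.single g (1 : ℂ) : A → ℂ) h = f g := by
  rw [Finset.sum_eq_single g]
  · rw [Pi.single_eq_same, mul_one]
  · intro h _ hne
    rw [Pi.single_eq_of_ne hne, mul_zero]
  · intro h; exact absurd (mem_univ _) h

theorem core (hN : ∀ i, 0 < N i)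
    (hfin : ∀ (l : ℕ) (x y : H p N (l + 2) → ℂ), Fac l x y → False)
    (hw : ∀ k, 0 < w p k ∧ w p k ≤ 1 ∧ w p (k + 1) ≤ w p k / 2000)
    (hsum : Summable (w p)) (htail : ∀ k, ∑' i, w p (i + k) ≤ 2 * w p k)
    (haa : ∀ (n : ℕ) (F : H p N n → ℂ), ap aa F = ∑ i : Fin n, (w p i : ℂ) * Ex i F)
    (ψ : (i : ℕ) → G → V p (N i)) (hψ : ∀ i g h, ψ i (g * h) = ψ i g + ψ i h)
    (t : (i : ℕ) → Fin (N i) → G) (ht : ∀ i j, ψ i (t i j) = Pi.single j 1)
    (ht' : ∀ i i' j, i' ≠ i → ψ i' (t i j) = 0) (hopen : OpenMul (GA G)) : False := by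
  classical
  set f : ℕ → GA G := fun i => (w p i : ℂ) • xi (p := p) t i with hf
  have hfn : ∀ i, ‖f i‖ ≤ w p i := by
    intro i
    rw [hf]
    simp only
    rw [norm_smul, Complex.norm_real, Real.norm_of_nonneg (hw i).1.le]
    have h1 := norm_xi (p := p) hN t i
    have h2 := (hw i).1
    nlinarith
  have hfs : Summable (fun i => ‖f i‖) :=
    Summable.of_nonneg_of_le (fun _ => norm_nonneg _) hfn hsum
  have hfs' : Summable f := hfs.of_norm
  set a : GA G := ∑' i, f i with ha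
  have htl : ∀ k, ‖∑' i, f (i + k)‖ ≤ 2 * w p k := by
    intro k
    have h1 : Summable (fun i => ‖f (i + k)‖) :=
      (summable_nat_add_iff (f := fun i => ‖f i‖) k).2 hfs
    have h2 : Summable (fun i => w p (i + k)) := (summable_nat_add_iff (f := w p) k).2 hsum
    refine (norm_tsum_le_tsum_norm h1).trans (le_trans ?_ (htail k))
    exact h1.tsum_le_tsum (fun i => hfn _) h2
  have hna : ‖a‖ ≤ 2 := by
    have h1 := htl 0
    simp only [add_zero] at h1
    have h2 : w p 0 = 1 := rfl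
    rw [h2] at h1
    linarith
  obtain ⟨δ, hδ, hop⟩ := hopen a a (1 / 8) (by norm_num)
  obtain ⟨l, hl⟩ : ∃ l, w p l < δ := by
    have h1 := hsum.tendsto_atTop_zero
    exact (h1.eventually_lt_const hδ).exists
  have hwl := hw l
  have hc1 : ‖(((w p l ^ 2 / 100 : ℝ) : ℂ) • xi (p := p) t (l + 1) : GA G)‖ ≤ w p l ^ 2 / 100 := by
    rw [norm_smul, Complex.norm_real, Real.norm_of_nonneg (by positivity)]
    have h1 := norm_xi (p := p) hN t (l + 1)
    have h2 : 0 ≤ w p l ^ 2 / 100 := by positivity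
    nlinarith
  obtain ⟨x, hx, y, hy, hxy⟩ := hop (a * a + ((w p l ^ 2 / 100 : ℝ) : ℂ) • xi (p := p) t (l + 1))
    (by
      rw [Metric.mem_ball, dist_eq_norm, add_sub_cancel_left]
      refine lt_of_le_of_lt hc1 (lt_of_le_of_lt ?_ hl)
      nlinarith [hwl.1, hwl.2.1])
  rw [Metric.mem_ball, dist_eq_norm] at hx hy
  set n := l + 2 with hn
  set b : GA G := ∑ i ∈ range n, f i with hb
  have hab : a - b = ∑' i, f (i + n) := by
    rw [ha, hb, ← hfs'.sum_add_tsum_nat_add n, add_sub_cancel_left]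
  have hab2 : ‖a - b‖ ≤ 2 * w p n := by
    rw [hab]
    exact htl n
  have hp2 : (2 : ℝ) ≤ p := by exact_mod_cast (Fact.out : p.Prime).two_le
  have hwn : w p n = w p (l + 1) ^ 2 / (1000 * p) := rfl
  have hwl1 := hw (l + 1)
  have hwn2 : w p n ≤ w p (l + 1) ^ 2 / 2000 := by
    rw [hwn]
    apply div_le_div_of_nonneg_left (by positivity) (by norm_num)
    linarith
  have hnb : ‖b‖ ≤ 2 + 2 * w p n := by
    have h1 : b = a - (a - b) := by abel
    rw [h1]
    refine (norm_sub_le _ _).trans ?_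
    linarith
  have hLb : ∀ F : H p N n → ℂ, LF (Psi ψ n) F b = ap aa F := by
    intro F
    rw [haa, hb, map_sum, sum_range]
    refine sum_congr rfl (fun i _ => ?_)
    rw [hf]
    simp only
    rw [map_smul, smul_eq_mul, LF_xi ψ hψ t ht ht']
  have hfb : ∀ g, fib (Psi ψ n) b g = aa g := by
    intro g
    unfold fib
    rw [hLb]
    exact sum_single _ _ _
  refine hfin l (fib (Psi ψ n) x) (fib (Psi ψ n) y) ⟨?_, ?_, ?_, ?_⟩
  · refine (sum_norm_fib _ _).trans ?_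
    have h1 : ‖x‖ ≤ ‖x - a‖ + ‖a‖ := by
      have := norm_add_le (x - a) a
      rwa [sub_add_cancel] at this
    linarith
  · refine (sum_norm_fib _ _).trans ?_
    have h1 : ‖y‖ ≤ ‖y - a‖ + ‖a‖ := by
      have := norm_add_le (y - a) a
      rwa [sub_add_cancel] at this
    linarith
  · intro F hF
    have h0 : ap (fib (Psi ψ n) x) F = LF (Psi ψ n) F x := sum_fib _ _ _
    rw [h0, ← hLb, ← map_sub]
    refine (norm_LF_le _ F hF _).trans ?_
    have h1 : x - b = (x - a) + (a - b) := by abel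
    rw [h1]
    refine (norm_add_le _ _).trans ?_
    have h2 : w p (l + 1) ^ 2 ≤ 1 := by nlinarith [hwl1.1, hwl1.2.1]
    linarith
  · intro F hF
    have h0 : ap2 (fib (Psi ψ n) x) (fib (Psi ψ n) y) F = LF (Psi ψ n) F (x * y) :=
      LF_mul _ (Psi_mul ψ hψ n) _ _ _
    have h1 : ap2 (aa : H p N n → ℂ) aa F = LF (Psi ψ n) F (b * b) := by
      rw [← LF_mul _ (Psi_mul ψ hψ n)]
      unfold ap2
      simp only [hfb]
    have h2 : Ex (Fin.last (l + 1)) F = LF (Psi ψ n) F (xi (p := p) t (l + 1)) :=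
      (LF_xi ψ hψ t ht ht' n (Fin.last (l + 1)) F).symm
    have h3 : ((w p l ^ 2 / 100 : ℝ) : ℂ) * Ex (Fin.last (l + 1)) F
        = LF (Psi ψ n) F (((w p l ^ 2 / 100 : ℝ) : ℂ) • xi (p := p) t (l + 1)) := by
      rw [h2, map_smul, smul_eq_mul]
    rw [h0, h1, h3, ← map_add, ← map_sub, hxy]
    refine (norm_LF_le _ F hF _).trans ?_
    have h4 : a * a + ((w p l ^ 2 / 100 : ℝ) : ℂ) • xi (p := p) t (l + 1)
        - (b * b + ((w p l ^ 2 / 100 : ℝ) : ℂ) • xi (p := p) t (l + 1))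
        = a * (a - b) + (a - b) * b := by
      rw [mul_sub, sub_mul]
      abel
    rw [h4]
    refine (norm_add_le _ _).trans ?_
    have h5 := norm_mul_le a (a - b)
    have h6 := norm_mul_le (a - b) b
    have h7 : w p n ≤ 1 / 2000 := by
      have : w p (l + 1) ^ 2 ≤ 1 := by nlinarith [hwl1.1, hwl1.2.1]
      linarith
    have h8 : ‖a‖ * ‖a - b‖ ≤ 2 * ‖a - b‖ := mul_le_mul_of_nonneg_right hna (norm_nonneg _)
    have h9 : ‖a - b‖ * ‖b‖ ≤ ‖a - b‖ * 3 := by
      apply mul_le_mul_of_nonneg_left _ (norm_nonneg _)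
      linarith
    have h10 : 0 ≤ w p (l + 1) ^ 2 := by positivity
    linarith

theorem t_PUSH : S_FIN → S_GRP → S_NUM → S_AAF → S_PUSH := by
  intro hFIN hGRP hNUM hAAF G _ _ hc n hn hG hopen
  let _ : CommGroup G := { ‹Group G› with mul_comm := hc }
  obtain ⟨p, hp, hmaps⟩ := hGRP G n hn hG
  have : Fact p.Prime := ⟨hp⟩
  obtain ⟨N, hN, hfin⟩ := hFIN p
  obtain ⟨ψ, hψ, t, ht, ht'⟩ := hmaps N
  obtain ⟨h1, -, -, -, h5, h6⟩ := hNUM p
  exact core hN hfin h1 h5 h6 (fun n F => (hAAF p N n hN).1 F) ψ hψ t ht ht' hopen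

end

end Pool.Agent.D0H30.OP
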